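import Mathlib
import Pool.Agent.H892.KT.Stm

/-!
# Birational germs with a given jet
-/

set_option autoImplicit false

open Filter Topology Set
open scoped Manifold ContDiff

namespace Pool.Agent.H549.KT

open Pool.Agent.H892.KT

theorem taylor_two (σ : ℂ × ℂ → ℂ × ℂ) (A : (ℂ × ℂ) ≃L[ℂ] (ℂ × ℂ)) (h1 : AnalyticAt ℂ σ 0)
    (h2 : σ 0 = 0) (h3 : fderiv ℂ σ 0 = A) : (fun y => A y - σ y) =O[𝓝 0] fun y => ‖y‖ ^ 2 := by
  obtain ⟨p, hp⟩ := h1
  have h4 := hp.isBigO_sub_partialSum_pow 2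
  have h5 : ∀ y : ℂ × ℂ, p.partialSum 2 y = A y := by
    intro y
    rw [FormalMultilinearSeries.partialSum, Finset.sum_range_succ, Finset.sum_range_succ,
      Finset.sum_range_zero, zero_add, hp.coeff_zero, h2, zero_add]
    have h6 := hp.fderiv_eq
    rw [h3] at h6
    have h7 : (A : (ℂ × ℂ) →L[ℂ] (ℂ × ℂ)) y = continuousMultilinearCurryFin1 ℂ (ℂ × ℂ) (ℂ × ℂ) (p 1) y := by
      rw [h6]
    have h8 : A y = (A : (ℂ × ℂ) →L[ℂ] (ℂ × ℂ)) y := rfl
    rw [h8, h7, continuousMultilinearCurryFin1_apply]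
    congr 1
  have h6 : (fun y => A y - σ y) = fun y => -(σ (0 + y) - p.partialSum 2 y) := by
    funext y
    rw [h5, zero_add, neg_sub]
  rw [h6]
  exact h4.neg_left

theorem t_JETS (h1 : S_JSTEP) (h2 : S_JLINBG) : S_JETS := by
  intro σ A N hσ h0 hA
  have key : ∀ k : ℕ, ∃ e, BG e ∧ (fun y => e y - σ y) =O[𝓝 0] fun y => ‖y‖ ^ (k + 2) := by
    intro k
    induction k with
    | zero =>
      obtain ⟨e, he, hey⟩ := h2 A
      refine ⟨e, he, ?_⟩
      have h3 := taylor_two σ A hσ h0 hA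
      have h4 : (fun y => e y - σ y) = fun y => A y - σ y := by
        funext y
        rw [hey]
      rw [h4]
      exact h3
    | succ k ih =>
      obtain ⟨e, he, heo⟩ := ih
      exact h1 (k + 2) σ (by omega) hσ e he heo
  rcases Nat.eq_zero_or_pos N with rfl | hN
  · obtain ⟨e, he, heo⟩ := key 0
    refine ⟨e, he, heo.trans ?_⟩
    rw [Asymptotics.isBigO_iff]
    refine ⟨1, ?_⟩
    have h3 : ∀ᶠ y : ℂ × ℂ in 𝓝 0, ‖y‖ < 1 := by
      have h4 := Metric.ball_mem_nhds (0 : ℂ × ℂ) one_pos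
      filter_upwards [h4] with y hy
      rwa [mem_ball_zero_iff] at hy
    filter_upwards [h3] with y hy
    rw [norm_pow, norm_pow, norm_norm, one_mul]
    exact pow_le_pow_of_le_one (norm_nonneg y) hy.le (by norm_num)
  · obtain ⟨k, rfl⟩ : ∃ k, N = k + 1 := ⟨N - 1, by omega⟩
    exact key k

end Pool.Agent.H549.KT
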